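import Pool.Agent.Lib.MP_6b3014_an.Sm.Final

/-!
MP_6b3014_an, Q1, positive direction.

A `K`-quasiconformal map `f : D → D'` of domains of three-space with `K > 1` that satisfies `Hyp` (one
of four conditions on the directions of nearly extremal stretching) is a composition `g ∘ h` with
`K(h) ≤ 1 + δ` (any given `δ > 0`) and `K(g) < K`.
-/

open MeasureTheory Set
open scoped RealInnerProductSpace ContDiff
open Pool.Agent.Lib.MP_6b3014_an.Sm

namespace Pool.Agent.Results.MP_6b3014_an.FirstVariation

theorem result (D D' : Set E) (hD : IsOpen D) (_hDc : IsConnected D) (_hD' : IsOpen D')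
    (K : ℝ) (hK : 1 < K) (f : E → E) (Df : E → E →L[ℝ] E) (hf : IsQC K D D' f Df)
    (U : Set E) (hU : IsOpen U) (hyp : Hyp K D U f Df) (δ : ℝ) (hδ : 0 < δ) :
    Factors K D D' U f δ :=
  final D D' hD K hK f Df hf U hU hyp δ hδ

end Pool.Agent.Results.MP_6b3014_an.FirstVariation
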