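import Pool.Agent.Lib.MP_6b3014_an.FI6

/-!
# Factoring three-dimensional quasiconformal maps: two factors do not help

For every nonempty open set `D` of `ℝ³` and every `K ≥ 1` there is a quasiconformal homeomorphism
`f` of `D` onto itself with maximal dilatation `K`, equal to the identity off a compact subset of
`D`, such that in every factorisation `f = g ∘ h` the inner dilatation of `h` or the outer
dilatation of `g` is at least `K / 10 ^ 15`.  In the plane one can always factor with both maximal
dilatations equal to `√K`.
-/

open Set MeasureTheory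
open scoped ENNReal

theorem Pool.Agent.Results.MP_6b3014_an.TwoFactors.result :
    ∀ D : Set Pool.QC3.E, IsOpen D → D.Nonempty → ∀ K : ℝ, 1 ≤ K →
      ∃ f : OpenPartialHomeomorph Pool.QC3.E Pool.QC3.E,
        f.source = D ∧ f.target = D ∧
        (∃ Z : Set Pool.QC3.E, IsCompact Z ∧ Z ⊆ D ∧ ∀ x ∈ D, x ∉ Z → f x = x) ∧
        Pool.QC3.maxDil f = ENNReal.ofReal K ∧
        ∀ h g : OpenPartialHomeomorph Pool.QC3.E Pool.QC3.E,
          h.source = D → h.target = g.source → (∀ x ∈ D, g (h x) = f x) →
          ENNReal.ofReal (K / 10 ^ 15) ≤ max (Pool.QC3.KI h) (Pool.QC3.KO g) :=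
  fun D hDo hne K hK => Pool.QC3.main D hDo hne K hK
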